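import Pool.Agent.N912.LB.Stm
import Pool.Agent.N87.RC.RC5
import Pool.Agent.N615.RC.RC0

/-!
# LB9: functions of the ideals of the maximal order of an imaginary quadratic field which are far
from the ray class characters are aperiodic
-/

set_option autoImplicit false

namespace Pool.Agent.N545.LB

open NumberField Finset
open Pool.Agent.W78.GA (Qd nm ball nm_mul nm_zero nm_eq_zero one_le_nm mem_ball)
open Pool.Agent.N912.EP.W78EG (Apd)
open Pool.Agent.W251.GX (Cm)
open Pool.Agent.N912.LB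
open Pool.Agent.Y773.G (IsModChar)
open Pool.Agent.N87.RC (re_natMul im_natMul)

section surj

/-- a subring of finite index (in the sense of a common denominator) which is integrally closed is
everything -/
theorem surj_of_closed {R K : Type} [CommRing R] [Field K] [NumberField K] (φ : R →+* 𝓞 K)
    (hinj : Function.Injective φ) (hR : IsIntegrallyClosed R) {f₀ : ℕ} (hf₀ : 1 ≤ f₀)
    (hf : ∀ w : 𝓞 K, ∃ z, φ z = (f₀ : 𝓞 K) * w) : Function.Surjective φ := by
  intro w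
  have hdom : IsDomain R := hinj.isDomain φ
  obtain ⟨z, hz⟩ := hf w
  let g : R →+* K := (algebraMap (𝓞 K) K).comp φ
  have hg : Function.Injective g := by
    intro a b hab
    exact hinj (RingOfIntegers.coe_injective hab)
  let Φ : FractionRing R →+* K := IsFractionRing.lift hg
  have hΦ : ∀ a : R, Φ (algebraMap R (FractionRing R) a) = (φ a : K) := fun a =>
    IsFractionRing.lift_algebraMap hg a
  have hf0K : (f₀ : K) ≠ 0 := by exact_mod_cast (by omega : f₀ ≠ 0)
  have hinjΦ : Function.Injective Φ := Φ.injective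
  have hf0F : (f₀ : FractionRing R) ≠ 0 := by
    intro h
    have h1 := congrArg Φ h
    rw [map_natCast, map_zero] at h1
    exact hf0K h1
  obtain ⟨u, hu⟩ : ∃ u, u = algebraMap R (FractionRing R) z / (f₀ : FractionRing R) := ⟨_, rfl⟩
  have hΦu : Φ u = (w : K) := by
    rw [hu, map_div₀, hΦ, map_natCast, hz]
    push_cast
    field_simp
  have hint : IsIntegral ℤ u := by
    obtain ⟨p, hp, hpw⟩ := w.isIntegral_coe
    refine ⟨p, hp, ?_⟩
    apply hinjΦ
    rw [map_zero, Polynomial.hom_eval₂, hΦu]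
    have h1 : Φ.comp (algebraMap ℤ (FractionRing R)) = algebraMap ℤ K := RingHom.ext_int _ _
    rw [h1]
    exact hpw
  have hint2 : IsIntegral R u := hint.tower_top
  obtain ⟨y, hy⟩ := IsIntegrallyClosed.algebraMap_eq_of_integral hint2
  refine ⟨y, ?_⟩
  apply RingOfIntegers.coe_injective
  have h9 : (φ y : K) = (w : K) := by
    rw [← hΦu, ← hy, hΦ]
  exact h9

end surj

section transport

variable {R : Type} [CommRing R] {K : Type} [Field K] [NumberField K] (e : R ≃+* 𝓞 K)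

/-- the ideals of `𝓞 K` as ideals of `R` -/
noncomputable def bk (J : Ideal (𝓞 K)) : Ideal R := Ideal.map (e.symm : 𝓞 K →+* R) J

/-- the ideals of `R` as ideals of `𝓞 K` -/
noncomputable def fw (I : Ideal R) : Ideal (𝓞 K) := Ideal.map (e : R →+* 𝓞 K) I

theorem bk_fw (I : Ideal R) : bk e (fw e I) = I := by
  unfold bk fw
  rw [Ideal.map_map]
  have : (e.symm : 𝓞 K →+* R).comp (e : R →+* 𝓞 K) = RingHom.id R := by
    ext x
    simp
  rw [this, Ideal.map_id]

theorem fw_bk (J : Ideal (𝓞 K)) : fw e (bk e J) = J := by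
  unfold bk fw
  rw [Ideal.map_map]
  have : (e : R →+* 𝓞 K).comp (e.symm : 𝓞 K →+* R) = RingHom.id (𝓞 K) := by
    ext x
    simp
  rw [this, Ideal.map_id]

theorem fw_bot : fw e (⊥ : Ideal R) = ⊥ := Ideal.map_bot

theorem bk_bot : bk e (⊥ : Ideal (𝓞 K)) = ⊥ := Ideal.map_bot

theorem bk_ne {J : Ideal (𝓞 K)} (h : J ≠ ⊥) : bk e J ≠ ⊥ := by
  intro h1
  apply h
  rw [← fw_bk e J, h1, fw_bot]

theorem fw_ne {I : Ideal R} (h : I ≠ ⊥) : fw e I ≠ ⊥ := by
  intro h1
  apply h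
  rw [← bk_fw e I, h1, bk_bot]

theorem fw_span (x : R) : fw e (Ideal.span {x}) = Ideal.span {e x} := by
  unfold fw
  rw [Ideal.map_span, Set.image_singleton]
  rfl

theorem bk_span (x : R) : bk e (Ideal.span {e x}) = Ideal.span {x} := by
  rw [← fw_span, bk_fw]

theorem fw_prime {I : Ideal R} : (fw e I).IsPrime ↔ I.IsPrime := by
  constructor
  · intro h
    have h1 : (Ideal.map e.symm (fw e I)).IsPrime := Ideal.map_isPrime_of_equiv e.symm
    have h2 : Ideal.map e.symm (fw e I) = I := bk_fw e I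
    rwa [h2] at h1
  · intro h
    exact Ideal.map_isPrime_of_equiv e

theorem fw_card (I : Ideal R) : Ideal.absNorm (fw e I) = Nat.card (R ⧸ I) := by
  rw [Ideal.absNorm_apply, Submodule.cardQuot_apply]
  exact (Nat.card_congr (Ideal.quotientEquiv I (fw e I) e rfl).toEquiv).symm

theorem CMI_bk {N : ℕ} {F : Ideal R → ℂ} (hF : CMI N F) :
    CMI N (fun J : Ideal (𝓞 K) => F (bk e J)) where
  pos := hF.pos
  mul := by
    intro I J hI hJ
    show F (bk e (I * J)) = F (bk e I) * F (bk e J)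
    have h1 : bk e (I * J) = bk e I * bk e J := Ideal.map_mul _ _ _
    rw [h1, hF.mul _ _ (bk_ne e hI) (bk_ne e hJ)]
  pow := fun I hI => hF.pow _ (bk_ne e hI)

theorem FarI_bk {F : Ideal R → ℂ} (hF : FarR F) :
    FarI K (fun J : Ideal (𝓞 K) => F (bk e J)) := by
  classical
  intro 𝔪 η hη hsum
  let η' : Ideal R →*₀ ℂ := η.comp (Ideal.mapHom (e : R →+* 𝓞 K)).toMonoidWithZeroHom
  have hη' : ∀ I, η' I = η (fw e I) := fun I => rfl
  have hR : RCh (bk e 𝔪) η' :=
    { ne_bot := bk_ne e hη.ne_bot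
      supp := by
        intro I
        rw [hη', hη.supp]
        constructor
        · intro h
          have h1 := h.map (Ideal.mapHom (e.symm : 𝓞 K →+* R))
          have h2 : Ideal.mapHom (e.symm : 𝓞 K →+* R) (fw e I) = I := bk_fw e I
          rw [h2] at h1
          exact h1
        · intro h
          have h1 := h.map (Ideal.mapHom (e : R →+* 𝓞 K))
          have h2 : Ideal.mapHom (e : R →+* 𝓞 K) (bk e 𝔪) = 𝔪 := fw_bk e 𝔪
          rw [h2] at h1
          exact h1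
      ray := by
        intro x hx hxm
        rw [hη', fw_span, hη.sig (e x) (by simpa using hx) ?_]
        · unfold Pool.Agent.Y773.G.sg
          simp
        · have h1 : e (x - 1) ∈ fw e (bk e 𝔪) := Ideal.mem_map_of_mem (e : R →+* 𝓞 K) hxm
          rw [fw_bk, map_sub, map_one] at h1
          exact h1 }
  refine hF (bk e 𝔪) η' hR ?_
  let E : Ideal R ≃ Ideal (𝓞 K) := ⟨fw e, bk e, bk_fw e, fw_bk e⟩
  have h2 := (E.summable_iff (f := fun 𝔭 : Ideal (𝓞 K) =>
      if 𝔭.IsPrime ∧ 𝔭 ≠ ⊥ ∧ F (bk e 𝔭) ≠ η 𝔭 then 1 / (Ideal.absNorm 𝔭 : ℝ) else 0)).2 hsum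
  refine h2.congr fun 𝔭 => ?_
  show _ = (if 𝔭.IsPrime ∧ 𝔭 ≠ ⊥ ∧ F 𝔭 ≠ η' 𝔭 then 1 / (Nat.card (R ⧸ 𝔭) : ℝ) else 0)
  show (if (fw e 𝔭).IsPrime ∧ fw e 𝔭 ≠ ⊥ ∧ F (bk e (fw e 𝔭)) ≠ η (fw e 𝔭) then
    1 / (Ideal.absNorm (fw e 𝔭) : ℝ) else 0) = _
  have h3 : fw e 𝔭 ≠ ⊥ ↔ 𝔭 ≠ ⊥ := by
    constructor
    · rintro h rfl
      exact h (fw_bot e)
    · exact fw_ne e
  rw [fw_card, bk_fw]
  simp only [fw_prime, h3, hη']

end transport

variable {t c : ℤ}

theorem cm_el {N : ℕ} {F : Ideal (Qd t c) → ℂ} (hF : CMI N F) (hD : t ^ 2 < 4 * c) :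
    Cm N (el F : Qd t c → ℂ) where
  pos := hF.pos
  mul := by
    intro z w hz hw
    have hzw : z * w ≠ 0 := by
      intro h
      have h1 := congrArg nm h
      rw [nm_mul, nm_zero] at h1
      rcases Nat.mul_eq_zero.1 h1 with h2 | h2
      · exact hz ((nm_eq_zero hD).1 h2)
      · exact hw ((nm_eq_zero hD).1 h2)
    unfold el
    rw [if_neg hz, if_neg hw, if_neg hzw, ← Ideal.span_singleton_mul_span_singleton,
      hF.mul _ _ (by rwa [Ne, Ideal.span_singleton_eq_bot])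
        (by rwa [Ne, Ideal.span_singleton_eq_bot])]
  pow := by
    intro z
    unfold el
    split_ifs with h
    · exact one_pow _
    · exact hF.pow _ (by rwa [Ne, Ideal.span_singleton_eq_bot])

open scoped Classical in
theorem inner (hD : t ^ 2 < 4 * c) {K : Type} [Field K] [NumberField K] (e : Qd t c ≃+* 𝓞 K)
    (hnm : ∀ z, Ideal.absNorm (Ideal.span {e z}) = nm z) (F : Ideal (Qd t c) → ℂ) (M : ℕ)
    (r₁ r₂ : ℤ) (X : ℝ) :
    ∑ z ∈ (ball t c X).filter (fun z => (M : ℤ) ∣ z.re - r₁ ∧ (M : ℤ) ∣ z.im - r₂), el F z =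
    ∑ᶠ z ∈ {z : 𝓞 K | z ≠ 0 ∧ (Ideal.absNorm (Ideal.span {z}) : ℝ) ≤ X ∧
      (M : 𝓞 K) ∣ z - e ⟨r₁, r₂⟩}, F (bk e (Ideal.span {z})) := by
  set T := (ball t c X).filter (fun z => (M : ℤ) ∣ z.re - r₁ ∧ (M : ℤ) ∣ z.im - r₂) with hT
  have hset : {z : 𝓞 K | z ≠ 0 ∧ (Ideal.absNorm (Ideal.span {z}) : ℝ) ≤ X ∧
      (M : 𝓞 K) ∣ z - e ⟨r₁, r₂⟩} = e '' (T : Set (Qd t c)) := by
    ext w
    simp only [Set.mem_setOf_eq, Set.mem_image, Finset.mem_coe]
    constructor
    · rintro ⟨hw0, hwX, y, hy⟩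
      obtain ⟨z', hz'⟩ := e.surjective y
      have hw : e ((⟨r₁, r₂⟩ : Qd t c) + (M : Qd t c) * z') = w := by
        rw [map_add, map_mul, map_natCast, hz', ← hy]
        ring
      refine ⟨(⟨r₁, r₂⟩ : Qd t c) + (M : Qd t c) * z', ?_, hw⟩
      rw [hT, mem_filter, mem_ball hD]
      have hne : (⟨r₁, r₂⟩ : Qd t c) + (M : Qd t c) * z' ≠ 0 := by
        intro h
        rw [h, map_zero] at hw
        exact hw0 hw.symm
      refine ⟨⟨(one_le_nm hD).2 hne, ?_⟩, ?_, ?_⟩
      · rw [← hnm, hw]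
        exact hwX
      · rw [QuadraticAlgebra.re_add, re_natMul]
        have : r₁ + (M : ℤ) * z'.re - r₁ = M * z'.re := by ring
        rw [this]
        exact dvd_mul_right _ _
      · rw [QuadraticAlgebra.im_add, im_natMul]
        have : r₂ + (M : ℤ) * z'.im - r₂ = M * z'.im := by ring
        rw [this]
        exact dvd_mul_right _ _
    · rintro ⟨z, hz, rfl⟩
      rw [hT, mem_filter, mem_ball hD] at hz
      obtain ⟨⟨hz1, hzX⟩, ⟨a, ha⟩, ⟨b, hb⟩⟩ := hz
      refine ⟨?_, ?_, ?_⟩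
      · intro h
        have h' : z = 0 := e.injective (by rw [h, map_zero])
        exact (one_le_nm hD).1 hz1 h'
      · rw [hnm]
        exact hzX
      · refine ⟨e ⟨a, b⟩, ?_⟩
        have h1 : z - ⟨r₁, r₂⟩ = (M : Qd t c) * ⟨a, b⟩ := by
          ext
          · rw [QuadraticAlgebra.re_sub, re_natMul]
            exact ha
          · rw [QuadraticAlgebra.im_sub, im_natMul]
            exact hb
        rw [← map_sub, h1, map_mul, map_natCast]
  rw [hset, finsum_mem_image e.injective.injOn, finsum_mem_coe_finset]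
  refine Finset.sum_congr rfl (fun z hz => ?_)
  rw [hT, mem_filter, mem_ball hD] at hz
  have hz0 : z ≠ 0 := (one_le_nm hD).1 hz.1.1
  rw [bk_span]
  unfold el
  rw [if_neg hz0]

/-- **Functions far from the ray class characters are aperiodic.** -/
theorem he (h : S_HD) : S_HE := by
  intro t c hD hcl N F hF hfar
  obtain ⟨K, iF, iN, iT, φ, f₀, hfin, hf₀, hinj, hnm, hf⟩ :=
    Pool.Agent.N615.RC.rc0 t c hD
  have hsurj := surj_of_closed φ hinj hcl hf₀ hf
  let e : Qd t c ≃+* 𝓞 K := RingEquiv.ofBijective φ ⟨hinj, hsurj⟩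
  have he : ∀ z, e z = φ z := fun z => rfl
  refine ⟨cm_el hF hD, ?_⟩
  intro M r₁ r₂ hM ε hε
  obtain ⟨X₀, hX₀⟩ := h K hfin N _ (CMI_bk e hF) (FarI_bk e hfar) M (e ⟨r₁, r₂⟩) hM ε hε
  refine ⟨X₀, fun X hX => ?_⟩
  have h1 := hX₀ X hX
  rw [← inner hD e (fun z => by rw [he]; exact hnm z) F M r₁ r₂ X] at h1
  convert h1

end Pool.Agent.N545.LB
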